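import Pool.Agent.H93.EN.Targets4

/-!
Board en_modules, row INF: the indicator function is invariant.
-/

set_option autoImplicit false

namespace Pool.Agent.H32.EN

open MeasureTheory Set Metric Filter Topology Pool.Agent.H93.EN
open Pool.Agent.H93.BL hiding T_B1 T_B2 T_B3 T_SB T_SC

theorem FE_congr {ι : Type} (P : Polygon ι) (E : Set ι) (U : Set ℂ) {y w y' w' : ℂ}
    (h : (y ∈ P.Ω ∧ ‖w‖ = 1 ∧ ¬ RU P E U y w ∧ ¬ RU P E U y (-w)) ↔
      (y' ∈ P.Ω ∧ ‖w'‖ = 1 ∧ ¬ RU P E U y' w' ∧ ¬ RU P E U y' (-w'))) :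
    FE P E U y w = FE P E U y' w' := by
  unfold FE
  by_cases h0 : y ∈ P.Ω ∧ ‖w‖ = 1 ∧ ¬ RU P E U y w ∧ ¬ RU P E U y (-w)
  · rw [if_pos h0, if_pos (h.1 h0)]
  · rw [if_neg h0, if_neg fun h' => h0 (h.2 h')]

theorem infT (h1 : T_INM) (h2 : T_INC) (h3 : T_RF) : T_INF := by
  intro ι _ P E U hU hUΩ
  refine ⟨h1 ι P E U hU hUΩ, ?_, ?_, ?_, ?_, ?_⟩
  · intro y w
    unfold FE
    split_ifs
    · exact ⟨zero_le_one, le_rfl⟩
    · exact ⟨le_rfl, zero_le_one⟩
  · intro y w hy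
    unfold FE
    rw [if_neg fun h => hy h.1]
  · intro y w
    have e : (y ∈ P.Ω ∧ ‖-w‖ = 1 ∧ ¬ RU P E U y (-w) ∧ ¬ RU P E U y (- -w)) ↔
        (y ∈ P.Ω ∧ ‖w‖ = 1 ∧ ¬ RU P E U y w ∧ ¬ RU P E U y (-w)) := by
      rw [norm_neg, neg_neg]
      tauto
    exact FE_congr P E U e
  · intro y w t hw ht hfree
    rcases ht.lt_or_eq with ht0 | ht0
    · have hy : y ∈ P.Ω := by
        have := hfree 0 ⟨le_rfl, ht⟩
        simpa using this
      have hy' : y + (t : ℂ) * w ∈ P.Ω := hfree t ⟨ht, le_rfl⟩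
      have A := h3 ι P E U y w t ht0 hw fun r hr => hfree r ⟨hr.1.le, hr.2⟩
      have e0 : y + (t : ℂ) * w + (t : ℂ) * -w = y := by ring
      have B := h3 ι P E U (y + (t : ℂ) * w) (-w) t ht0 (by rw [norm_neg, hw]) fun r hr => by
        have e : y + (t : ℂ) * w + (r : ℂ) * -w = y + ((t - r : ℝ) : ℂ) * w := by
          push_cast
          ring
        rw [e]
        exact hfree _ ⟨by linarith [hr.2], by linarith [hr.1]⟩
      rw [e0, neg_neg] at B
      have hSg : ∀ y w, Sg P U y w → RU P E U y w := fun y w h => Or.inl h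
      have key : (y + (t : ℂ) * w ∈ P.Ω ∧ ‖w‖ = 1 ∧ ¬ RU P E U (y + (t : ℂ) * w) w ∧
          ¬ RU P E U (y + (t : ℂ) * w) (-w)) ↔
          (y ∈ P.Ω ∧ ‖w‖ = 1 ∧ ¬ RU P E U y w ∧ ¬ RU P E U y (-w)) := by
        constructor
        · rintro ⟨-, -, a, b⟩
          refine ⟨hy, hw, fun h => ?_, fun h => b (B.1 h)⟩
          rcases A.2 hy h with h' | h'
          · exact a h'
          · exact b (hSg _ _ h')
        · rintro ⟨-, -, a, b⟩
          refine ⟨hy', hw, fun h => a (A.1 h), fun h => ?_⟩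
          rcases B.2 hy' h with h' | h'
          · exact b h'
          · exact a (hSg _ _ h')
      exact FE_congr P E U key
    · rw [← ht0]
      simp
  · intro j y w t s hw ht hs hip ha hb hc
    exact h2 ι P E U hUΩ j y w t s hw ht hs hip ha hb hc

end Pool.Agent.H32.EN
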