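import Pool.Agent.H93.EN.Targets4
import Pool.Agent.H93.BL.Final

/-!
Board en_modules, row OPV: reaching from a corner point is stable.
-/

set_option autoImplicit false

namespace Pool.Agent.H32.EN

open MeasureTheory Set Metric Filter Topology Pool.Agent.H93.EN
open Pool.Agent.H93.BL hiding T_B1 T_B2 T_B3 T_SB T_SC

theorem norm_u {ι : Type} (P : Polygon ι) (j : ι) : ‖P.u j‖ = 1 := by
  have h : ‖P.q j - P.p j‖ ≠ 0 := norm_ne_zero_iff.2 (sub_ne_zero.2 (P.ne j).symm)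
  unfold Polygon.u Polygon.len
  rw [norm_div, Complex.norm_real, norm_norm, div_self h]

theorem norm_uv {ι : Type} (P : Polygon ι) (j : ι) (θ : ℝ) : ‖uv P j θ‖ = 1 := by
  unfold uv
  rw [norm_mul, norm_u, Complex.norm_exp_ofReal_mul_I, one_mul]

theorem uv_add {ι : Type} (P : Polygon ι) (j : ι) (θ η : ℝ) :
    uv P j (θ + η) = Complex.exp ((η : ℂ) * Complex.I) * uv P j θ := by
  unfold uv
  rw [← mul_assoc, ← Complex.exp_add]
  push_cast
  ring_nf

theorem norm_exp_sub_one (x : ℝ) : ‖Complex.exp ((x : ℂ) * Complex.I) - 1‖ ≤ |x| := by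
  rw [mul_comm]
  exact Real.norm_exp_I_mul_ofReal_sub_one_le

theorem vtx_notMem {ι : Type} (P : Polygon ι) (j : ι) : P.p j ∉ P.Ω := by
  intro h
  have h1 : P.p j ∈ frontier P.Ω := by
    rw [P.frontier_eq]
    exact mem_iUnion.2 ⟨j, left_mem_segment ℝ _ _⟩
  rw [P.isOpen.frontier_eq] at h1
  exact h1.2 h

theorem opv (h1 : T_RO) (h2 : T_RF) : T_OPV := by
  intro ι _ P E U hU hUΩ i j α φ hc hφ hR
  obtain ⟨-, -, -, -, rc, hrc, hsec⟩ := hc
  have hωn : ‖uv P j φ‖ = 1 := norm_uv P j φ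
  set ω : ℂ := uv P j φ with hω
  set v : ℂ := P.p j with hv
  have hvΩ : v ∉ P.Ω := vtx_notMem P j
  -- a first step
  obtain ⟨s₁, hs₁, hs₁c, hR₁⟩ : ∃ s₁ : ℝ, 0 < s₁ ∧ s₁ < rc / 2 ∧
      RU P E U (v + (s₁ : ℂ) * ω) ω := by
    rcases hR with ⟨r, hr0, hrU, hrΩ⟩ | ⟨z, hz, ⟨t, ht, hpos, htΩ⟩, hdir, hPR⟩
    · have hr : 0 < r := by
        rcases hr0.lt_or_eq with h | h
        · exact h
        · exfalso
          rw [← h] at hrU
          apply hvΩ
          apply hUΩ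
          simpa using hrU
      obtain ⟨s, hs, hs'⟩ := exists_between (lt_min hr (half_pos hrc))
      refine ⟨s, hs, hs'.trans_le (min_le_right _ _), Or.inl ⟨r - s, ?_, ?_, ?_⟩⟩
      · exact sub_nonneg.2 (hs'.trans_le (min_le_left _ _)).le
      · have e : v + (s : ℂ) * ω + ((r - s : ℝ) : ℂ) * ω = v + (r : ℂ) * ω := by
          push_cast
          ring
        rw [e]
        exact hrU
      · intro r' hr'
        have e : v + (s : ℂ) * ω + (r' : ℂ) * ω = v + ((s + r' : ℝ) : ℂ) * ω := by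
          push_cast
          ring
        rw [e]
        exact hrΩ _ ⟨by linarith [hr'.1], by linarith [hr'.2]⟩
    · obtain ⟨s, hs, hs'⟩ := exists_between (lt_min ht (half_pos hrc))
      have hst : s < t := hs'.trans_le (min_le_left _ _)
      refine ⟨s, hs, hs'.trans_le (min_le_right _ _), Or.inr ⟨z, hz, ⟨t - s, sub_pos.2 hst, ?_, ?_⟩,
        hdir, hPR⟩⟩
      · rw [hpos]
        push_cast
        ring
      · intro r' hr'
        have e : v + (s : ℂ) * ω + (r' : ℂ) * ω = v + ((s + r' : ℝ) : ℂ) * ω := by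
          push_cast
          ring
        rw [e]
        exact htΩ _ ⟨by linarith [hr'.1], by linarith [hr'.2]⟩
  have hy₁ : v + (s₁ : ℂ) * ω ∈ P.Ω := hsec s₁ ⟨hs₁, by linarith⟩ φ hφ
  obtain ⟨ε₁, hε₁, hro⟩ := h1 ι P E U hU hUΩ _ hy₁ ω hωn hR₁
  -- the argument is small near one
  set η : ℝ := min φ (α - φ) with hη
  have hηpos : 0 < η := lt_min hφ.1 (sub_pos.2 hφ.2)
  obtain ⟨δ, hδ, harg⟩ : ∃ δ > (0 : ℝ), ∀ ζ : ℂ, ‖ζ - 1‖ < δ → |Complex.arg ζ| < η := by
    have hcont : ContinuousAt Complex.arg 1 := Complex.continuousAt_arg (by simp)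
    obtain ⟨δ, hδ, h⟩ := Metric.continuousAt_iff.1 hcont η hηpos
    refine ⟨δ, hδ, fun ζ hζ => ?_⟩
    have := h (x := ζ) (by rw [dist_eq_norm]; exact hζ)
    rw [Complex.arg_one, Real.dist_eq, sub_zero] at this
    exact this
  -- the sector
  have hsector : ∀ (s r : ℝ) (a b : ℂ), 0 < s → 0 < r → s + r < rc → ‖a‖ = 1 → ‖b‖ = 1 →
      ‖a - 1‖ < min δ 1 → ‖b - 1‖ < min δ 1 →
      v + ((s : ℂ) * a + (r : ℂ) * b) * ω ∈ P.Ω := by
    intro s r a b hs hr hsr ha hb ha1 hb1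
    have hsr0 : 0 < s + r := by linarith
    have hsrC : ((s + r : ℝ) : ℂ) ≠ 0 := by
      exact_mod_cast hsr0.ne'
    set Z : ℂ := (s : ℂ) * a + (r : ℂ) * b with hZ
    set ζ : ℂ := Z / ((s + r : ℝ) : ℂ) with hζ
    have hZζ : Z = ((s + r : ℝ) : ℂ) * ζ := by
      rw [hζ, mul_div_cancel₀ _ hsrC]
    have hζ1 : ‖ζ - 1‖ < min δ 1 := by
      have e : ζ - 1 = ((s : ℂ) * (a - 1) + (r : ℂ) * (b - 1)) / ((s + r : ℝ) : ℂ) := by
        rw [hζ, eq_div_iff hsrC, sub_mul, div_mul_cancel₀ _ hsrC, hZ]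
        push_cast
        ring
      rw [e, norm_div, Complex.norm_real, Real.norm_of_nonneg hsr0.le, div_lt_iff₀ hsr0]
      calc ‖(s : ℂ) * (a - 1) + (r : ℂ) * (b - 1)‖ ≤ ‖(s : ℂ) * (a - 1)‖ + ‖(r : ℂ) * (b - 1)‖ :=
            norm_add_le _ _
        _ = s * ‖a - 1‖ + r * ‖b - 1‖ := by
            rw [norm_mul, norm_mul, Complex.norm_real, Complex.norm_real, Real.norm_of_nonneg hs.le,
              Real.norm_of_nonneg hr.le]
        _ < s * min δ 1 + r * min δ 1 :=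
            add_lt_add (mul_lt_mul_of_pos_left ha1 hs) (mul_lt_mul_of_pos_left hb1 hr)
        _ = min δ 1 * (s + r) := by ring
    have hζ0 : ζ ≠ 0 := by
      intro h0
      rw [h0] at hζ1
      have : ‖(0 : ℂ) - 1‖ = 1 := by simp
      rw [this] at hζ1
      exact absurd hζ1 (not_lt.2 (min_le_right _ _))
    have hZ0 : Z ≠ 0 := by
      rw [hZζ]
      exact mul_ne_zero hsrC hζ0
    have hZn : ‖Z‖ < rc := by
      refine lt_of_le_of_lt ?_ hsr
      rw [hZ]
      refine (norm_add_le _ _).trans (le_of_eq ?_)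
      rw [norm_mul, norm_mul, Complex.norm_real, Complex.norm_real, Real.norm_of_nonneg hs.le,
        Real.norm_of_nonneg hr.le, ha, hb, mul_one, mul_one]
    have hargZ : Complex.arg Z = Complex.arg ζ := by
      rw [hZζ]
      exact Complex.arg_real_mul _ hsr0
    have hA := harg ζ (hζ1.trans_le (min_le_left _ _))
    have hA1 := (abs_lt.1 hA)
    have key := hsec ‖Z‖ ⟨norm_pos_iff.2 hZ0, hZn⟩ (φ + Complex.arg Z) (by
      rw [hargZ]
      constructor
      · have := min_le_left φ (α - φ)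
        linarith [hA1.1]
      · have := min_le_right φ (α - φ)
        linarith [hA1.2])
    rw [uv_add] at key
    have e : (‖Z‖ : ℂ) * (Complex.exp ((Complex.arg Z : ℂ) * Complex.I) * uv P j φ) = Z * ω := by
      rw [← mul_assoc, Complex.norm_mul_exp_arg_mul_I]
    rw [e] at key
    exact key
  -- the radius
  set ε : ℝ := min (min (min δ 1) (min η (rc / 2))) (ε₁ / (1 + s₁)) with hε
  have hs₁' : 0 < 1 + s₁ := by linarith
  have hεpos : 0 < ε := by
    refine lt_min (lt_min (lt_min hδ one_pos) (lt_min hηpos (half_pos hrc))) (div_pos hε₁ hs₁')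
  have hεδ : ε ≤ min δ 1 := (min_le_left _ _).trans (min_le_left _ _)
  have hεη : ε ≤ η := (min_le_left _ _).trans ((min_le_right _ _).trans (min_le_left _ _))
  have hεc : ε ≤ rc / 2 := (min_le_left _ _).trans ((min_le_right _ _).trans (min_le_right _ _))
  have hεε : ε * (1 + s₁) ≤ ε₁ := by
    have := (min_le_right (min (min δ 1) (min η (rc / 2))) (ε₁ / (1 + s₁)))
    calc ε * (1 + s₁) ≤ ε₁ / (1 + s₁) * (1 + s₁) := mul_le_mul_of_nonneg_right this hs₁'.le
      _ = ε₁ := div_mul_cancel₀ _ hs₁'.ne'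
  have hεs : 0 ≤ ε * s₁ := by positivity
  have huvω : ∀ ψ : ℝ, uv P j ψ = Complex.exp (((ψ - φ : ℝ) : ℂ) * Complex.I) * ω := by
    intro ψ
    have := uv_add P j φ (ψ - φ)
    rw [add_sub_cancel] at this
    exact this
  have hω0 : ω ≠ 0 := by
    intro h
    rw [h, norm_zero] at hωn
    exact zero_ne_one hωn
  refine ⟨ε, hεpos, ?_, ?_⟩
  · intro s hs ψ hψ w hw hwω
    have hψ' : |ψ - φ| < ε := abs_lt.2 ⟨by linarith [hψ.1], by linarith [hψ.2]⟩
    set a : ℂ := Complex.exp (((ψ - φ : ℝ) : ℂ) * Complex.I) with ha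
    have han : ‖a‖ = 1 := Complex.norm_exp_ofReal_mul_I _
    have ha1 : ‖a - 1‖ < min δ 1 := ((norm_exp_sub_one _).trans_lt hψ').trans_le hεδ
    set b : ℂ := w / ω with hb
    have hbn : ‖b‖ = 1 := by rw [hb, norm_div, hw, hωn, div_one]
    have hbω : b * ω = w := div_mul_cancel₀ _ hω0
    have hb1 : ‖b - 1‖ < min δ 1 := by
      have e : b - 1 = (w - ω) / ω := by rw [sub_div, div_self hω0]
      rw [e, norm_div, hωn, div_one]
      exact hwω.trans_le hεδ
    have hpt : pt P j s ψ = v + (s : ℂ) * (a * ω) := by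
      unfold pt
      rw [huvω ψ]
    have hfree : ∀ r ∈ Ioc (0 : ℝ) s₁, pt P j s ψ + (r : ℂ) * w ∈ P.Ω := by
      intro r hr
      have e : pt P j s ψ + (r : ℂ) * w = v + ((s : ℂ) * a + (r : ℂ) * b) * ω := by
        rw [hpt, add_mul, mul_assoc (r : ℂ) b ω, hbω]
        ring
      rw [e]
      exact hsector s r a b hs.1 hr.1 (by linarith [hs.2, hr.2]) han hbn ha1 hb1
    refine (h2 ι P E U _ w s₁ hs₁ hw hfree).1 ?_
    refine hro _ w ?_ hw ?_
    · rw [dist_eq_norm]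
      have e : pt P j s ψ + (s₁ : ℂ) * w - (v + (s₁ : ℂ) * ω) =
          (s : ℂ) * (a * ω) + (s₁ : ℂ) * (w - ω) := by
        rw [hpt]
        ring
      rw [e]
      calc ‖(s : ℂ) * (a * ω) + (s₁ : ℂ) * (w - ω)‖ ≤
            ‖(s : ℂ) * (a * ω)‖ + ‖(s₁ : ℂ) * (w - ω)‖ := norm_add_le _ _
        _ = s + s₁ * ‖w - ω‖ := by
            rw [norm_mul, norm_mul, norm_mul, han, hωn, Complex.norm_real, Complex.norm_real,
              Real.norm_of_nonneg hs.1.le, Real.norm_of_nonneg hs₁.le]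
            ring
        _ < ε + s₁ * ε := add_lt_add hs.2 (mul_lt_mul_of_pos_left hwω hs₁)
        _ = ε * (1 + s₁) := by ring
        _ ≤ ε₁ := hεε
    · rw [dist_eq_norm]
      refine hwω.trans_le (le_trans ?_ hεε)
      linarith
  · intro ψ hψ
    have hψ' : |ψ - φ| < ε := abs_lt.2 ⟨by linarith [hψ.1], by linarith [hψ.2]⟩
    have hψα : ψ ∈ Ioo 0 α := by
      have h3 := min_le_left φ (α - φ)
      have h4 := min_le_right φ (α - φ)
      constructor
      · linarith [hψ.1]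
      · linarith [hψ.2]
    refine ⟨hψα, ?_⟩
    set a : ℂ := Complex.exp (((ψ - φ : ℝ) : ℂ) * Complex.I) with ha
    have hd : ‖uv P j ψ - ω‖ < ε := by
      have e : uv P j ψ - ω = (a - 1) * ω := by
        rw [huvω ψ]
        ring
      rw [e, norm_mul, hωn, mul_one]
      exact (norm_exp_sub_one _).trans_lt hψ'
    refine (h2 ι P E U v (uv P j ψ) s₁ hs₁ (norm_uv P j ψ) ?_).1 ?_
    · intro r hr
      exact hsec r ⟨hr.1, by linarith [hr.2]⟩ ψ hψα
    refine hro _ _ ?_ (norm_uv P j ψ) ?_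
    · rw [dist_eq_norm]
      have e : v + (s₁ : ℂ) * uv P j ψ - (v + (s₁ : ℂ) * ω) = (s₁ : ℂ) * (uv P j ψ - ω) := by ring
      rw [e, norm_mul, Complex.norm_real, Real.norm_of_nonneg hs₁.le]
      have := mul_lt_mul_of_pos_left hd hs₁
      linarith
    · rw [dist_eq_norm]
      refine hd.trans_le (le_trans ?_ hεε)
      linarith

end Pool.Agent.H32.EN
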